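import Pool.Agent.Helper50.HT.Stmts2
import Pool.Agent.Helper21.CF.TLS

/-!
# HT, row TLK: lower bound of the kinetic energy of an approximate ground state, heavy nuclei
-/

set_option autoImplicit false

namespace Pool.Agent.Helper21.HT

open MeasureTheory Filter Pool.Agent.Helper95 Pool.Agent.Helper95.PW Pool.Agent.Helper95.LN
open Pool.Agent.Helper26.HN Pool.Agent.Helper50.HT
open Pool.Agent.Helper21.LN Pool.Agent.Helper21.CF

/-- the integrated bound -/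
theorem tlk_int (h1 : Pool.Agent.Helper26.HN.ST_ESB) (h2 : ST_AED)
    (h3 : Pool.Agent.Helper26.HN.ST_INZ) (h7 : ST_INTM)
    (z b d : ℝ) (hz : 0 ≤ z) (hb : 0 < b) (hbd : b ≤ d)
    (n M : ℕ) (X : Fin M → R3) (Z : Fin M → ℝ) (u : Wf n) (hS : Sep X d)
    (hN : Nuc n Z) (hZ : ∀ j, Z j ≤ z) (hu : Sm u) :
    kin u ≤ QM X Z u + nucR X Z * Helper95.PW.sq u +
      (1 + z) / b * n * Helper95.PW.sq u + z * one (near1 X (2 * b)) u := by
  obtain ⟨hint, _⟩ := h3 n M X (2 * b) u hu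
  obtain ⟨C, hC⟩ : ∃ C : ℝ, C = (1 + z) / b * n := ⟨_, rfl⟩
  have H : ∀ x : Cf n, Dist X x → -(C + z * ∑ k, near1 X (2 * b) (x k)) ≤ Vc X Z x := by
    intro x hx
    obtain ⟨g1, g2, g3⟩ := h1 z b d hz hb hbd n M X Z x hS hN hZ hx
    rw [← hC] at g3
    linarith
  rw [← hC]
  have key : ∀ s, -(C * (∫ x, u s x ^ 2) +
      z * ∫ x, (∑ k, near1 X (2 * b) (x k)) * u s x ^ 2) ≤
      (∫ x, rep x * u s x ^ 2) - (∫ x, (∑ k, pot X Z (x k)) * u s x ^ 2) +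
        nucR X Z * ∫ x, u s x ^ 2 := by
    intro s
    obtain ⟨i1, i2, _, _⟩ := h7 n M X Z (u s) (u s) (hu s).1 (hu s).2 (hu s).1 (hu s).2
    have e1 : (fun x : Cf n => (∑ k, pot X Z (x k)) * (u s x * u s x)) =
        fun x : Cf n => (∑ k, pot X Z (x k)) * u s x ^ 2 := by
      funext x; rw [pow_two]
    have e2 : (fun x : Cf n => rep x * (u s x * u s x)) =
        fun x : Cf n => rep x * u s x ^ 2 := by
      funext x; rw [pow_two]
    rw [e1] at i1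
    rw [e2] at i2
    have i3 : Integrable (fun x : Cf n => u s x ^ 2) :=
      (com_memLp _ (hu s).1 (hu s).2).integrable_sq
    have i4 := hint s
    have j1 : Integrable (fun x : Cf n => rep x * u s x ^ 2 -
        (∑ k, pot X Z (x k)) * u s x ^ 2) := i2.sub i1
    have j2 : Integrable (fun x : Cf n => nucR X Z * u s x ^ 2) := i3.const_mul _
    have j3 : Integrable (fun x : Cf n => C * u s x ^ 2) := i3.const_mul _
    have j4 : Integrable (fun x : Cf n => z * ((∑ k, near1 X (2 * b) (x k)) * u s x ^ 2)) :=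
      i4.const_mul _
    rw [← integral_const_mul, ← integral_const_mul, ← integral_add j3 j4, ← integral_neg,
      ← integral_sub i2 i1, ← integral_const_mul, ← integral_add j1 j2]
    refine integral_mono_ae (j3.add j4).neg (j1.add j2) ?_
    filter_upwards [h2 n M X] with x hx
    have h4 := H x hx
    have h5 := mul_le_mul_of_nonneg_right h4 (sq_nonneg (u s x))
    unfold Vc at h5
    show -(C * u s x ^ 2 + z * ((∑ k, near1 X (2 * b) (x k)) * u s x ^ 2)) ≤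
      rep x * u s x ^ 2 - (∑ k, pot X Z (x k)) * u s x ^ 2 + nucR X Z * u s x ^ 2
    linarith
  have hsum := Finset.sum_le_sum fun s (_ : s ∈ Finset.univ) => key s
  rw [Finset.sum_neg_distrib, Finset.sum_add_distrib, Finset.sum_add_distrib,
    Finset.sum_sub_distrib, ← Finset.mul_sum, ← Finset.mul_sum, ← Finset.mul_sum] at hsum
  have e3 : QM X Z u = kin u + pair u - one (pot X Z) u := rfl
  have e4 : pair u = ∑ s, ∫ x, rep x * u s x ^ 2 := rfl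
  have e5 : one (pot X Z) u = ∑ s, ∫ x, (∑ k, pot X Z (x k)) * u s x ^ 2 := rfl
  have e6 : Helper95.PW.sq u = ∑ s, ∫ x, u s x ^ 2 := rfl
  have e7 : one (near1 X (2 * b)) u =
    ∑ s, ∫ x, (∑ k, near1 X (2 * b) (x k)) * u s x ^ 2 := rfl
  rw [← e4, ← e5, ← e6, ← e7] at hsum
  linarith

theorem tlk_pow {z y A : ℝ} (hz : 0 < z) (hy : y = z ^ (1 / 3 : ℝ)) (hA : 0 < A) :
    0 < y ∧ y ^ 3 = z ∧ z ^ (7 / 3 : ℝ) = y ^ 7 ∧
      z ^ (5 / 2 : ℝ) * (2 * (A / y)) ^ (1 / 2 : ℝ) = (2 * A) ^ (1 / 2 : ℝ) * y ^ 7 := by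
  have hy0 : 0 < y := by
    rw [hy]
    exact Real.rpow_pos_of_pos hz _
  have h3 : y ^ 3 = z := by
    rw [hy, ← Real.rpow_natCast, ← Real.rpow_mul hz.le]
    norm_num
  have h7 : z ^ (7 / 3 : ℝ) = y ^ 7 := by
    rw [hy, ← Real.rpow_natCast, ← Real.rpow_mul hz.le]
    norm_num
  refine ⟨hy0, h3, h7, ?_⟩
  have e1 : 2 * (A / y) = 2 * A / y := by ring
  have e2 : z ^ (5 / 2 : ℝ) = y ^ (15 / 2 : ℝ) := by
    rw [← h3, ← Real.rpow_natCast, ← Real.rpow_mul hy0.le]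
    norm_num
  rw [e1, Real.div_rpow (by positivity) hy0.le, e2]
  have e3 : y ^ (15 / 2 : ℝ) / y ^ (1 / 2 : ℝ) = y ^ 7 := by
    rw [← Real.rpow_sub hy0, ← Real.rpow_natCast]
    norm_num
  rw [mul_div_assoc', mul_comm (y ^ (15 / 2 : ℝ)), mul_div_assoc, e3]

/-- row TLK -/
theorem TLK (h1 : Pool.Agent.Helper26.HN.ST_ESB) (h2 : ST_AED)
    (h3 : Pool.Agent.Helper26.HN.ST_NEZ) (h4 : Pool.Agent.Helper26.HN.ST_INZ) (h5 : ST_QHM)
    (h6 : ST_INTM) : ST_TLK := by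
  intro c d hc hd
  obtain ⟨C, hC, H3⟩ := h3
  obtain ⟨A, hA⟩ : ∃ A : ℝ, A = 32 / c := ⟨_, rfl⟩
  have hA0 : 0 < A := by rw [hA]; positivity
  obtain ⟨D, hD⟩ : ∃ D : ℝ, D = 16 * C * (2 * A) ^ (1 / 2 : ℝ) / c := ⟨_, rfl⟩
  have hD0 : 0 < D := by rw [hD]; positivity
  obtain ⟨K, hK⟩ : ∃ K : ℝ, K = D ^ (2 / 3 : ℝ) := ⟨_, rfl⟩
  have hK0 : 0 < K := by rw [hK]; positivity
  have hKD : C * K ^ (-(3 / 2) : ℝ) * (2 * A) ^ (1 / 2 : ℝ) = c / 16 := by
    have e1 : K ^ (-(3 / 2) : ℝ) = D⁻¹ := by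
      rw [hK, ← Real.rpow_mul hD0.le]
      have : (2 / 3 : ℝ) * (-(3 / 2)) = -1 := by norm_num
      rw [this, Real.rpow_neg_one]
    have hq : 0 < (2 * A) ^ (1 / 2 : ℝ) := by positivity
    rw [e1, hD]
    field_simp
  obtain ⟨C', hC', H⟩ := H3 d K hd hK0
  obtain ⟨Y, hY⟩ : ∃ Y : ℝ, Y = 1 + 2 * A / d + 16 * C' / c + 36 / c := ⟨_, rfl⟩
  have p1 : 0 < 2 * A / d := by positivity
  have p2 : 0 < 16 * C' / c := by positivity
  have p3 : 0 < 36 / c := by positivity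
  have hY1 : 1 ≤ Y := by linarith
  refine ⟨3 * c / (16 * K), Y ^ 3, by positivity, one_le_pow₀ hY1, ?_⟩
  intro n M X Z z E u hz hM hN hZ hS hE hu ha hsq1 hsq2 hres
  have hz1 : 1 ≤ z := (one_le_pow₀ hY1).trans hz
  have hz0 : 0 < z := by linarith
  obtain ⟨y, hy⟩ : ∃ y : ℝ, y = z ^ (1 / 3 : ℝ) := ⟨_, rfl⟩
  obtain ⟨hy0, hy3, hy7, hy5⟩ := tlk_pow hz0 hy hA0
  have hYy : Y ≤ y := by
    by_contra hcon
    rw [not_le] at hcon
    have : y ^ 3 < Y ^ 3 := pow_lt_pow_left₀ hcon hy0.le (by norm_num)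
    linarith
  have hy1 : 1 ≤ y := hY1.trans hYy
  have q1 : 2 * A / d ≤ y := by linarith
  have q2 : 16 * C' / c ≤ y := by linarith
  have q3 : 36 / c ≤ y := by linarith
  rw [div_le_iff₀ hd] at q1
  rw [div_le_iff₀ hc] at q2 q3
  obtain ⟨b, hb⟩ : ∃ b : ℝ, b = A / y := ⟨_, rfl⟩
  have hb0 : 0 < b := by rw [hb]; positivity
  have hb2 : 2 * b ≤ d := by
    rw [hb, mul_div_assoc', div_le_iff₀ hy0]
    linarith
  have hbd : b ≤ d := by linarith
  have hM1 : (1 : ℝ) ≤ M := by exact_mod_cast hM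
  have hnz : (n : ℝ) ≤ z * M := by
    rw [← hN.2]
    calc ∑ j, Z j ≤ ∑ _j : Fin M, z := Finset.sum_le_sum fun j _ => hZ j
      _ = z * M := by simp [mul_comm]
  have a1 := tlk_int h1 h2 h4 h6 z b d hz0.le hb0 hbd n M X Z u hS hN hZ hu
  have a2 := tls_Q h5 h6 X Z E 1 one_pos u hu
  have a3 := H n M X z (2 * b) u hz1 hnz hS (by positivity) hb2 hu ha hsq2
  rw [hy7] at hE ⊢
  have k0 : 0 ≤ kin u := com_kin_nonneg u
  obtain ⟨S, hSd⟩ : ∃ S : ℝ, S = Helper95.PW.sq u := ⟨_, rfl⟩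
  rw [← hSd] at a1 a2 hsq1 hsq2
  obtain ⟨m, hm⟩ : ∃ m : ℝ, m = M * y ^ 7 := ⟨_, rfl⟩
  rw [← hm] at hE ⊢
  have hmy : y ≤ m := by
    rw [hm]
    have g1 : y ≤ y ^ 7 := by
      calc y = y ^ 1 := (pow_one y).symm
        _ ≤ y ^ 7 := pow_le_pow_right₀ hy1 (by norm_num)
    have g2 : y ^ 7 ≤ M * y ^ 7 := le_mul_of_one_le_left (by positivity) hM1
    linarith
  have hm0 : 0 < m := by linarith
  -- the terms
  have b1 : (E + nucR X Z) * S ≤ -(c * m) / 2 := by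
    have g1 : (E + nucR X Z) * S ≤ -(c * m) * S := mul_le_mul_of_nonneg_right hE (by linarith)
    have g2 : c * m * (1 / 2) ≤ c * m * S := mul_le_mul_of_nonneg_left hsq1 (by positivity)
    linarith
  have b2 : (1 + z) / b * n * S ≤ c / 8 * m := by
    have g1 : (1 + z) / b ≤ 2 * z / b := by
      apply div_le_div_of_nonneg_right _ hb0.le
      linarith
    have g2 : (1 + z) / b * n ≤ 2 * z / b * (z * M) :=
      mul_le_mul g1 hnz (Nat.cast_nonneg n) (by positivity)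
    have g3 : (1 + z) / b * n * S ≤ 2 * z / b * (z * M) * 2 :=
      mul_le_mul g2 hsq2 (by linarith) (by positivity)
    have g4 : 2 * z / b * (z * M) * 2 = c / 8 * m := by
      rw [hb, hm, hA, ← hy3]
      field_simp
      ring
    linarith
  have b3 : (C * K ^ (-(3 / 2) : ℝ) * z ^ (5 / 2 : ℝ) * (2 * b) ^ (1 / 2 : ℝ) + C' * z ^ 2) * M ≤
      c / 8 * m := by
    have g1 : C * K ^ (-(3 / 2) : ℝ) * z ^ (5 / 2 : ℝ) * (2 * b) ^ (1 / 2 : ℝ) =
        c / 16 * y ^ 7 := by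
      rw [hb, mul_assoc (C * K ^ (-(3 / 2) : ℝ)), hy5, ← mul_assoc, hKD]
    have g2 : C' * z ^ 2 ≤ c / 16 * y ^ 7 := by
      have g3 : z ^ 2 = y ^ 6 := by rw [← hy3]; ring
      rw [g3]
      have g4 : C' ≤ c / 16 * y := by linarith
      calc C' * y ^ 6 ≤ c / 16 * y * y ^ 6 := mul_le_mul_of_nonneg_right g4 (by positivity)
        _ = c / 16 * y ^ 7 := by ring
    rw [g1]
    have g5 : c / 16 * y ^ 7 + C' * z ^ 2 ≤ c / 8 * y ^ 7 := by linarith
    calc (c / 16 * y ^ 7 + C' * z ^ 2) * M ≤ c / 8 * y ^ 7 * M :=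
          mul_le_mul_of_nonneg_right g5 (by linarith)
      _ = c / 8 * m := by rw [hm]; ring
  have b4 : 9 / 4 ≤ c / 16 * m := by
    have g1 : y * c ≤ m * c := mul_le_mul_of_nonneg_right hmy hc.le
    linarith
  have b5 : 3 / 16 * (c * m) ≤ K * kin u := by
    have g1 : (E + nucR X Z) * S = E * S + nucR X Z * S := by ring
    linarith
  rw [div_mul_eq_mul_div, div_le_iff₀ (by positivity)]
  linarith

end Pool.Agent.Helper21.HT
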